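import Pool.Agent.Helper45.LinK.GoalsK

/-! Packet AFFK: the affine form of an action on `D × ℂᵏ`. -/

open Complex Metric Set Filter Topology MeasureTheory
open scoped ContDiff ComplexConjugate ComplexOrder

namespace Pool.Agent.Helper9.LinK

open Pool.Agent.Helper95.Lin Pool.Agent.Helper16.Abund Pool.Agent.Helper92.Orb
open Pool.Agent.Helper45.LinK

section Iota

variable {b k : ℕ}

/-- The point `(z, w)`. -/
def io (z : Cn b) (w : Cn k) : Cn (b + k) := Fin.append z w

theorem base_io (z : Cn b) (w : Cn k) : base (io z w) = z := by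
  funext i
  simp [base, io]

theorem fib_io (z : Cn b) (w : Cn k) : fib (io z w) = w := by
  funext i
  simp [fib, io]

theorem io_base_fib (v : Cn (b + k)) : io (base v) (fib v) = v := by
  funext i
  refine Fin.addCases (fun i => ?_) (fun i => ?_) i
  · unfold io
    rw [Fin.append_left]; rfl
  · unfold io
    rw [Fin.append_right]; rfl

theorem differentiable_io : Differentiable ℂ (fun p : Cn b × Cn k => io p.1 p.2) := by
  rw [differentiable_pi]
  intro i
  refine Fin.addCases (fun i => ?_) (fun i => ?_) i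
  · unfold io
    simp only [Fin.append_left]
    fun_prop
  · unfold io
    simp only [Fin.append_right]
    fun_prop

theorem continuous_io : Continuous (fun p : Cn b × Cn k => io p.1 p.2) :=
  differentiable_io.continuous

theorem differentiable_base' : Differentiable ℂ (base : Cn (b + k) → Cn b) := by
  rw [differentiable_pi]
  intro i
  unfold base
  fun_prop

theorem differentiable_fib : Differentiable ℂ (fib : Cn (b + k) → Cn k) := by
  rw [differentiable_pi]
  intro i
  unfold fib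
  fun_prop

/-- `vert` as a linear map. -/
noncomputable def vertL : Cn k →L[ℂ] Cn (b + k) :=
  LinearMap.toContinuousLinearMap
    { toFun := fun u => vert u
      map_add' := by
        intro u v
        funext i
        refine Fin.addCases (fun i => ?_) (fun i => ?_) i
        · simp [vert, Fin.append_left]
        · simp [vert, Fin.append_right]
      map_smul' := by
        intro c v
        funext i
        refine Fin.addCases (fun i => ?_) (fun i => ?_) i
        · simp [vert, Fin.append_left]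
        · simp [vert, Fin.append_right] }

theorem vertL_apply (u : Cn k) : (vertL u : Cn (b + k)) = vert u := rfl

theorem io_eq (z : Cn b) (w : Cn k) : io z w = io z 0 + vertL w := by
  funext i
  refine Fin.addCases (fun i => ?_) (fun i => ?_) i
  · simp [vertL_apply, vert, io, Fin.append_left]
  · simp [vertL_apply, vert, io, Fin.append_right]

theorem hasFDerivAt_io (z : Cn b) (w : Cn k) :
    HasFDerivAt (fun w : Cn k => io z w) (vertL : Cn k →L[ℂ] Cn (b + k)) w := by
  have h : (fun w : Cn k => io z w) = fun w => io z 0 + vertL w := by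
    funext w
    exact io_eq z w
  rw [h]
  exact (vertL.hasFDerivAt).const_add _

theorem vert_inj {u : Cn k} (h : (vert u : Cn (b + k)) = 0) : u = 0 := by
  funext j
  have := congrFun h (Fin.natAdd b j)
  simpa [vert, Fin.append_right] using this

end Iota

section Herm

variable {n : ℕ}

theorem hermi_smul (M : Matrix (Fin n) (Fin n) ℂ) (t : ℝ) (u : Cn n) :
    hermi M ((t : ℂ) • u) ((t : ℂ) • u) = ((t ^ 2 : ℝ) : ℂ) * hermi M u u := by
  unfold hermi
  rw [Finset.mul_sum]
  refine Finset.sum_congr rfl fun i _ => ?_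
  rw [Finset.mul_sum]
  refine Finset.sum_congr rfl fun j _ => ?_
  simp only [Pi.smul_apply, smul_eq_mul, map_mul, Complex.conj_ofReal]
  push_cast
  ring

theorem hermi_pos {M : Matrix (Fin n) (Fin n) ℂ} (hM : M.PosDef) {u : Cn n} (hu : u ≠ 0) :
    0 < (hermi M u u).re := by
  have h1 : hermi M u u = star (star u) ⬝ᵥ (M.mulVec (star u)) := by
    unfold hermi dotProduct Matrix.mulVec dotProduct
    refine Finset.sum_congr rfl fun i _ => ?_
    rw [Finset.mul_sum]
    refine Finset.sum_congr rfl fun j _ => ?_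
    simp only [Pi.star_apply, RCLike.star_def, RingHomCompTriple.comp_apply, RingHom.id_apply]
    ring
  have h2 : star u ≠ 0 := by
    intro h
    exact hu (by simpa using h)
  have h3 := hM.dotProduct_mulVec_pos h2
  rw [← h1] at h3
  exact (Complex.pos_iff.1 h3).1

end Herm

section Core

variable {b k : ℕ} {D : Set (Cn b)} {Γ : Type} [Group Γ] {F : Γ → Cn (b + k) → Cn (b + k)}

theorem io_mem {z : Cn b} (hz : z ∈ D) (w : Cn k) : io z w ∈ tubeK D k := by
  change base (io z w) ∈ D
  rw [base_io]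
  exact hz

/-- The base map. -/
noncomputable def gg (F : Γ → Cn (b + k) → Cn (b + k)) (γ : Γ) (z : Cn b) : Cn b :=
  base (F γ (io z 0))

/-- The translation part. -/
noncomputable def bb (F : Γ → Cn (b + k) → Cn (b + k)) (γ : Γ) (z : Cn b) : Cn k :=
  fib (F γ (io z 0))

/-- The fibre map. -/
noncomputable def ff (F : Γ → Cn (b + k) → Cn (b + k)) (γ : Γ) (z : Cn b) (w : Cn k) : Cn k :=
  fib (F γ (io z w))

/-- The linear part. -/
noncomputable def aa (F : Γ → Cn (b + k) → Cn (b + k)) (γ : Γ) (z : Cn b) : CE k :=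
  fderiv ℂ (ff F γ z) 0

theorem hF_io (h : GAct (tubeK D k) F) (γ : Γ) {z : Cn b} (hz : z ∈ D) :
    Differentiable ℂ (fun w : Cn k => F γ (io z w)) := by
  have h2 : DifferentiableOn ℂ (fun w : Cn k => F γ (io z w)) univ := by
    apply (h.holo γ).comp
    · exact (differentiable_io.comp ((differentiable_const z).prodMk
        differentiable_id)).differentiableOn
    · intro w _
      exact io_mem hz w
  exact differentiableOn_univ.1 h2

theorem base_const (hDb : Bornology.IsBounded D) (h : GAct (tubeK D k) F) (γ : Γ) {z : Cn b}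
    (hz : z ∈ D) (w : Cn k) : base (F γ (io z w)) = gg F γ z := by
  have h1 : Differentiable ℂ (fun w : Cn k => base (F γ (io z w))) :=
    differentiable_base'.comp (hF_io h γ hz)
  refine h1.apply_eq_apply_of_bounded (hDb.subset ?_) w 0
  rintro _ ⟨w, rfl⟩
  exact h.maps γ _ (io_mem hz w)

theorem F_eq (hDb : Bornology.IsBounded D) (h : GAct (tubeK D k) F) (γ : Γ) {z : Cn b}
    (hz : z ∈ D) (w : Cn k) : F γ (io z w) = io (gg F γ z) (ff F γ z w) := by
  rw [← base_const hDb h γ hz w, ff, io_base_fib]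

theorem gg_mem (h : GAct (tubeK D k) F) (γ : Γ) {z : Cn b} (hz : z ∈ D) : gg F γ z ∈ D :=
  h.maps γ _ (io_mem hz 0)

theorem gg_inv (hDb : Bornology.IsBounded D) (h : GAct (tubeK D k) F) (γ : Γ) {z : Cn b}
    (hz : z ∈ D) : gg F γ⁻¹ (gg F γ z) = z := by
  have h1 : F γ⁻¹ (F γ (io z 0)) = io z 0 := by
    rw [← h.mul _ _ _ (io_mem hz 0), inv_mul_cancel, h.one _ (io_mem hz 0)]
  rw [F_eq hDb h γ hz 0] at h1
  have h2 := base_const hDb h γ⁻¹ (gg_mem h γ hz) (ff F γ z 0)
  rw [h1, base_io] at h2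
  exact h2.symm

theorem entire_ff (h : GAct (tubeK D k) F) (γ : Γ) {z : Cn b} (hz : z ∈ D) :
    Differentiable ℂ (ff F γ z) :=
  differentiable_fib.comp (hF_io h γ hz)

theorem ff_inv (hDb : Bornology.IsBounded D) (h : GAct (tubeK D k) F) (γ : Γ) {z : Cn b}
    (hz : z ∈ D) (w : Cn k) : ff F γ⁻¹ (gg F γ z) (ff F γ z w) = w := by
  rw [ff, ← F_eq hDb h γ hz w, ← h.mul _ _ _ (io_mem hz w), inv_mul_cancel,
    h.one _ (io_mem hz w), fib_io]

/-- The derivative of `F γ` on vertical vectors. -/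
theorem fderiv_vert (hDb : Bornology.IsBounded D) (h : GAct (tubeK D k) F) (γ : Γ) {z : Cn b}
    (hz : z ∈ D) (w u : Cn k) :
    fderiv ℂ (F γ) (io z w) (vert u) = vert (fderiv ℂ (ff F γ z) w u) := by
  have h1 : DifferentiableAt ℂ (F γ) (io z w) :=
    (h.holo γ).differentiableAt (h.isOpen.mem_nhds (io_mem hz w))
  have h2 : HasFDerivAt (fun w : Cn k => F γ (io z w))
      ((fderiv ℂ (F γ) (io z w)).comp (vertL : Cn k →L[ℂ] Cn (b + k))) w :=
    h1.hasFDerivAt.comp w (hasFDerivAt_io z w)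
  have h3 : HasFDerivAt (fun w : Cn k => io (gg F γ z) (ff F γ z w))
      ((vertL : Cn k →L[ℂ] Cn (b + k)).comp (fderiv ℂ (ff F γ z) w)) w :=
    (hasFDerivAt_io (gg F γ z) (ff F γ z w)).comp w ((entire_ff h γ hz) w).hasFDerivAt
  have h4 : (fun w : Cn k => F γ (io z w)) = fun w => io (gg F γ z) (ff F γ z w) := by
    funext w
    exact F_eq hDb h γ hz w
  rw [h4] at h2
  have h5 := h2.unique h3
  have h6 := congrArg (fun L : Cn k →L[ℂ] Cn (b + k) => L u) h5
  simpa [vertL_apply] using h6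

variable {H : Cn (b + k) → Matrix (Fin (b + k)) (Fin (b + k)) ℂ}

/-- The quadratic form on vertical vectors. -/
noncomputable def qq (H : Cn (b + k) → Matrix (Fin (b + k)) (Fin (b + k)) ℂ) (v : Cn (b + k))
    (u : Cn k) : ℝ := (hermi (H v) (vert u) (vert u)).re

theorem qq_smul (v : Cn (b + k)) (t : ℝ) (u : Cn k) :
    qq H v ((t : ℂ) • u) = t ^ 2 * qq H v u := by
  unfold qq
  have h1 : (vert ((t : ℂ) • u) : Cn (b + k)) = (t : ℂ) • vert u := by
    rw [← vertL_apply, ← vertL_apply, map_smul]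
  rw [h1, hermi_smul, Complex.re_ofReal_mul]

theorem qq_pos (h : KAct (tubeK D k) F H) {v : Cn (b + k)} (hv : v ∈ tubeK D k) {u : Cn k}
    (hu : u ≠ 0) : 0 < qq H v u :=
  hermi_pos (h.posDef v hv) fun h0 => hu (vert_inj h0)

theorem qq_inv (hDb : Bornology.IsBounded D) (h : KAct (tubeK D k) F H) (γ : Γ) {z : Cn b}
    (hz : z ∈ D) (w u : Cn k) :
    qq H (F γ (io z w)) (fderiv ℂ (ff F γ z) w u) = qq H (io z w) u := by
  unfold qq
  rw [← fderiv_vert hDb h.act γ hz w u, h.inv γ _ (io_mem hz w)]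

theorem qc_of (hDb : Bornology.IsBounded D) (h : KAct (tubeK D k) F H) {K : Set (Cn b)}
    (hK : K ⊆ D) {C : ℝ} (hC : 0 ≤ C)
    (hq : ∀ v : Cn (b + k), base v ∈ K → ∀ u u' : Cn k, ‖u‖ = ‖u'‖ → qq H v u ≤ C * qq H v u')
    (γ : Γ) {z : Cn b} (hz : z ∈ K) (hgz : gg F γ z ∈ K) (w : Cn k) :
    QC C (fderiv ℂ (ff F γ z) w) := by
  intro u u' huu
  set L := fderiv ℂ (ff F γ z) w with hL
  have hzD := hK hz
  have i1 := qq_inv hDb h γ hzD w u
  have i2 := qq_inv hDb h γ hzD w u'
  rw [← hL] at i1 i2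
  have hx : F γ (io z w) ∈ tubeK D k := h.act.maps γ _ (io_mem hzD w)
  have hbx : base (F γ (io z w)) ∈ K := by
    rw [base_const hDb h.act γ hzD w]
    exact hgz
  by_cases hLu : L u = 0
  · rw [hLu, norm_zero]
    positivity
  have hu : u ≠ 0 := by
    rintro rfl
    exact hLu (map_zero L)
  have hu' : u' ≠ 0 := by
    rintro rfl
    rw [norm_zero, norm_eq_zero] at huu
    exact hu huu
  have hLu' : L u' ≠ 0 := by
    intro h0
    have h1 := qq_pos h (io_mem hzD w) hu'
    rw [← i2, h0] at h1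
    have h2 : qq H (F γ (io z w)) (0 : Cn k) = 0 := by
      have := qq_smul (H := H) (F γ (io z w)) 0 (0 : Cn k)
      simpa using this
    rw [h2] at h1
    exact lt_irrefl _ h1
  set s := ‖L u‖ with hs
  set s' := ‖L u'‖ with hs'
  have hs0 : 0 < s := norm_pos_iff.2 hLu
  have hs0' : 0 < s' := norm_pos_iff.2 hLu'
  have q1 : qq H (F γ (io z w)) (L u) ≤ C * qq H (F γ (io z w)) (L u') := by
    rw [i1, i2]
    refine hq _ ?_ u u' huu
    rw [base_io]
    exact hz
  have q2 : qq H (F γ (io z w)) ((s : ℂ) • L u') ≤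
      C * qq H (F γ (io z w)) ((s' : ℂ) • L u) := by
    refine hq _ hbx _ _ ?_
    rw [norm_smul, norm_smul, Complex.norm_real, Complex.norm_real, Real.norm_of_nonneg hs0.le,
      Real.norm_of_nonneg hs0'.le, ← hs, ← hs']
    ring
  rw [qq_smul, qq_smul] at q2
  have hp := qq_pos h hx hLu'
  have q3 : s ^ 2 * qq H (F γ (io z w)) (L u') ≤
      (C * s') ^ 2 * qq H (F γ (io z w)) (L u') := by
    calc s ^ 2 * qq H (F γ (io z w)) (L u') ≤ C * (s' ^ 2 * qq H (F γ (io z w)) (L u)) := q2
      _ ≤ C * (s' ^ 2 * (C * qq H (F γ (io z w)) (L u'))) := by gcongr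
      _ = (C * s') ^ 2 * qq H (F γ (io z w)) (L u') := by ring
  have q4 : s ^ 2 ≤ (C * s') ^ 2 := le_of_mul_le_mul_right q3 hp
  exact abs_le_of_sq_le_sq' q4 (by positivity) |>.2

theorem qc_all (hDb : Bornology.IsBounded D) (h : KAct (tubeK D k) F H) (hQ : QCM D H) (γ : Γ)
    {z : Cn b} (hz : z ∈ D) : ∃ C : ℝ, 0 ≤ C ∧ ∀ w, QC C (fderiv ℂ (ff F γ z) w) := by
  have hK : ({z, gg F γ z} : Set (Cn b)) ⊆ D := by
    rintro x (rfl | rfl)
    · exact hz
    · exact gg_mem h.act γ hz
  obtain ⟨C, hC, hq⟩ := hQ _ hK (Set.toFinite _).isCompact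
  exact ⟨C, hC, fun w => qc_of hDb h hK hC hq γ (by simp) (by simp) w⟩

theorem ff_affine (hlio : S_LIO) (hDb : Bornology.IsBounded D) (h : KAct (tubeK D k) F H)
    (hQ : QCM D H) (γ : Γ) {z : Cn b} (hz : z ∈ D) (w : Cn k) :
    ff F γ z w = aa F γ z w + bb F γ z := by
  obtain ⟨C, hC, hq⟩ := qc_all hDb h hQ γ hz
  refine hlio (ff F γ z) (ff F γ⁻¹ (gg F γ z)) (entire_ff h.act γ hz)
    (entire_ff h.act γ⁻¹ (gg_mem h.act γ hz)) (fun w => ff_inv hDb h.act γ hz w) ?_ C hC hq w
  intro w
  have h1 := ff_inv hDb h.act γ⁻¹ (gg_mem h.act γ hz) w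
  rw [inv_inv, gg_inv hDb h.act γ hz] at h1
  exact h1

theorem F_form (hlio : S_LIO) (hDb : Bornology.IsBounded D) (h : KAct (tubeK D k) F H)
    (hQ : QCM D H) (γ : Γ) {z : Cn b} (hz : z ∈ D) (w : Cn k) :
    F γ (io z w) = io (gg F γ z) (aa F γ z w + bb F γ z) := by
  rw [F_eq hDb h.act γ hz w, ff_affine hlio hDb h hQ γ hz w]

theorem F_Tt (hlio : S_LIO) (hDb : Bornology.IsBounded D) (h : KAct (tubeK D k) F H)
    (hQ : QCM D H) (γ : Γ) {v : Cn (b + k)} (hv : v ∈ tubeK D k) :
    F γ v = TtK (gg F) (aa F) (bb F) γ v := by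
  have h1 := F_form hlio hDb h hQ γ (z := base v) hv (fib v)
  rw [io_base_fib] at h1
  exact h1

theorem holo_io (h : GAct (tubeK D k) F) (γ : Γ) (w : Cn k) :
    DifferentiableOn ℂ (fun z : Cn b => F γ (io z w)) D := by
  apply (h.holo γ).comp
  · exact (differentiable_io.comp (differentiable_id.prodMk
      (differentiable_const w))).differentiableOn
  · intro z hz
    exact io_mem hz w

theorem gAct_gg (hD : IsOpen D) (hDb : Bornology.IsBounded D) (h : GAct (tubeK D k) F) :
    GAct D (gg F) where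
  isOpen := hD
  holo γ := differentiable_base'.comp_differentiableOn (holo_io h γ 0)
  maps γ z hz := gg_mem h γ hz
  one z hz := by
    unfold gg
    rw [h.one _ (io_mem hz 0), base_io]
  mul γ γ' z hz := by
    have h1 : gg F (γ * γ') z = base (F γ (F γ' (io z 0))) := by
      unfold gg
      rw [h.mul _ _ _ (io_mem hz 0)]
    rw [h1, F_eq hDb h γ' hz 0, base_const hDb h γ (gg_mem h γ' hz)]

theorem ff_mul (hlio : S_LIO) (hDb : Bornology.IsBounded D) (h : KAct (tubeK D k) F H)
    (hQ : QCM D H) (γ γ' : Γ) {z : Cn b} (hz : z ∈ D) (w : Cn k) : ff F (γ * γ') z w =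
      aa F γ (gg F γ' z) (aa F γ' z w + bb F γ' z) + bb F γ (gg F γ' z) := by
  rw [ff, h.act.mul _ _ _ (io_mem hz w), F_form hlio hDb h hQ γ' hz w,
    F_form hlio hDb h hQ γ (gg_mem h.act γ' hz), fib_io]

theorem aa_apply (hlio : S_LIO) (hDb : Bornology.IsBounded D) (h : KAct (tubeK D k) F H)
    (hQ : QCM D H) (γ : Γ) {z : Cn b} (hz : z ∈ D) (w : Cn k) :
    aa F γ z w = ff F γ z w - ff F γ z 0 := by
  rw [ff_affine hlio hDb h hQ γ hz w, ff_affine hlio hDb h hQ γ hz 0, map_zero]
  abel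

end Core

theorem affk : S_LIO → S_AFFK := by
  intro hlio b k D Γ _ F H hD hF hQ
  have hDb := hD.bdd
  refine ⟨gg F, aa F, bb F, ?_, fun γ v hv => F_Tt hlio hDb hF hQ γ hv⟩
  obtain ⟨K, hKM, hK, hKc⟩ := hF.coc
  have hK2 : IsCompact (base '' K : Set (Cn b)) := hK.image differentiable_base'.continuous
  have hK3 : IsCompact (fib '' K : Set (Cn k)) := hK.image differentiable_fib.continuous
  have hKD : (base '' K : Set (Cn b)) ⊆ D := by
    rintro _ ⟨v, hv, rfl⟩
    exact hKM hv
  obtain ⟨R, hR⟩ := hK3.isBounded.exists_norm_le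
  have hcoc : ∀ z ∈ D, ∀ w : Cn k, ∃ γ : Γ, gg F γ z ∈ (base '' K : Set (Cn b)) ∧
      ‖aa F γ z w + bb F γ z‖ ≤ R := by
    intro z hz w
    obtain ⟨γ, hγ⟩ := hKc (io z w) (io_mem hz w)
    rw [F_form hlio hDb hF hQ γ hz w] at hγ
    exact ⟨γ, ⟨_, hγ, base_io _ _⟩, hR _ ⟨_, hγ, fib_io _ _⟩⟩
  have hone : ∀ z ∈ D, ∀ w : Cn k, ff F 1 z w = w := by
    intro z hz w
    rw [ff, hF.act.one _ (io_mem hz w), fib_io]
  exact
    { base :=
        { dom := hD
          act := gAct_gg hD.isOpen hDb hF.act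
          coc := ⟨_, hKD, hK2, fun z hz => (hcoc z hz 0).imp fun γ h => h.1⟩ }
      a_holo := by
        intro γ
        have h1 : ContDiffOn ℂ ∞ (aa F γ) D := by
          rw [contDiffOn_clm_apply]
          intro u
          have h2 : DifferentiableOn ℂ (fun z => ff F γ z u - ff F γ z 0) D :=
            (differentiable_fib.comp_differentiableOn (holo_io hF.act γ u)).sub
              (differentiable_fib.comp_differentiableOn (holo_io hF.act γ 0))
          have h3 := holo_contDiffOn hD.isOpen h2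
          exact h3.congr fun z hz => aa_apply hlio hDb hF hQ γ hz u
        exact h1.differentiableOn (by simp)
      b_holo := fun γ => differentiable_fib.comp_differentiableOn (holo_io hF.act γ 0)
      a_one := by
        intro z hz
        ext1 w
        rw [aa_apply hlio hDb hF hQ 1 hz, hone z hz, hone z hz]
        simp
      b_one := fun z hz => hone z hz 0
      a_mul := by
        intro γ γ' z hz
        ext1 w
        rw [aa_apply hlio hDb hF hQ _ hz, ff_mul hlio hDb hF hQ γ γ' hz w,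
          ff_mul hlio hDb hF hQ γ γ' hz 0, map_add, map_add, map_zero, map_zero]
        rw [mul_apply_eq_comp]
        abel
      b_mul := by
        intro γ γ' z hz
        have h0 := ff_mul hlio hDb hF hQ γ γ' hz 0
        rw [map_zero, zero_add] at h0
        exact h0
      qc := by
        intro K' hK' hK'c
        obtain ⟨C, hC, hq⟩ := hQ _ hK' hK'c
        exact ⟨C, hC, fun γ z hz hgz => qc_of hDb hF hK' hC hq γ hz hgz 0⟩
      proper := by
        intro K' hK' hK'c R'
        have hS : IsCompact ((fun p : Cn b × Cn k => io p.1 p.2) ''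
            (K' ×ˢ closedBall (0 : Cn k) R')) :=
          (hK'c.prod (isCompact_closedBall 0 R')).image continuous_io
        have hST : (fun p : Cn b × Cn k => io p.1 p.2) '' (K' ×ˢ closedBall (0 : Cn k) R') ⊆
            tubeK D k := by
          rintro _ ⟨⟨z, w⟩, ⟨hz, -⟩, rfl⟩
          exact io_mem (hK' hz) w
        refine (hF.proper _ hST hS).subset ?_
        rintro γ ⟨z, hz, w, hw, hgz, hw'⟩
        refine ⟨io z w, ⟨(z, w), ⟨hz, by simpa using hw⟩, rfl⟩, ?_⟩
        rw [F_form hlio hDb hF hQ γ (hK' hz) w]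
        exact ⟨(gg F γ z, aa F γ z w + bb F γ z), ⟨hgz, by simpa using hw'⟩, rfl⟩
      coc := ⟨_, hKD, hK2, R, hcoc⟩ }

end Pool.Agent.Helper9.LinK
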