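import Pool.Agent.Helper45.LinK.GoalsM
import Pool.Agent.Helper34.Lin.Dkmet

/-! # Packet DKMETK: the pull back of a Kähler metric under a local biholomorphism -/

open Complex Metric Set Filter Topology MeasureTheory
open scoped ContDiff ComplexConjugate ComplexOrder Manifold

namespace Pool.Agent.Helper9.LinK

open Pool.Agent.Helper16.Abund Pool.Agent.Helper92.Orb Pool.Agent.Helper95.Lin
  Pool.Agent.Helper11.Abund Pool.Agent.Helper34.Lin Pool.Agent.Helper45.LinK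

universe u v

theorem pullK {n : ℕ} {X : Type u} {Y : Type v} [TopologicalSpace X]
    [ChartedSpace (Fin n → ℂ) X] [TopologicalSpace Y] [ChartedSpace (Fin n → ℂ) Y]
    [IsManifold 𝓘(ℂ, Fin n → ℂ) ω X] [IsManifold 𝓘(ℂ, Fin n → ℂ) ω Y] {P : Y → X}
    (hP : IsLocalDiffeomorph 𝓘(ℂ, Fin n → ℂ) 𝓘(ℂ, Fin n → ℂ) ω P)
    {g : X → Matrix (Fin n) (Fin n) ℂ} (hg : KahlerMetric n X g) :
    KahlerMetric n Y (fun y => pullM (dP P y) (g (P y))) ∧
      ∀ T : Y → Y, MDifferentiable 𝓘(ℂ, Fin n → ℂ) 𝓘(ℂ, Fin n → ℂ) T → (∀ v, P (T v) = P v) →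
        InvMetric n (fun y => pullM (dP P y) (g (P y))) T := by
  have hPd : MDifferentiable 𝓘(ℂ, Fin n → ℂ) 𝓘(ℂ, Fin n → ℂ) P := hP.mdifferentiable (by simp)
  refine ⟨⟨fun y => pullM_posDef _ (dP_inj hP y) (hg.1 _), ?_⟩, ?_⟩
  · intro V ψ hψ
    have hcomp : HoloOn n (P ∘ ψ) V :=
      ⟨hψ.1, fun z hz => (hPd (ψ z)).comp_mdifferentiableWithinAt z (hψ.2 z hz)⟩
    obtain ⟨hs, hc⟩ := hg.2 V (P ∘ ψ) hcomp
    have hat : ∀ z ∈ V, MDifferentiableAt 𝓘(ℂ, Fin n → ℂ) 𝓘(ℂ, Fin n → ℂ) ψ z := fun z hz =>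
      (hψ.2 z hz).mdifferentiableAt (hψ.1.mem_nhds hz)
    have heq : ∀ z ∈ V, ∀ u v, metricForm n (fun y => pullM (dP P y) (g (P y))) ψ z u v =
        metricForm n g (P ∘ ψ) z u v := by
      intro z hz u v
      unfold metricForm
      rw [herm_pullM, dvec_comp hPd (hat z hz), dvec_comp hPd (hat z hz)]
      rfl
    have hfd : ∀ z ∈ V, ∀ u v, fderiv ℝ (fun z => metricForm n
        (fun y => pullM (dP P y) (g (P y))) ψ z u v) z =
        fderiv ℝ (fun z => metricForm n g (P ∘ ψ) z u v) z := by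
      intro z hz u v
      apply Filter.EventuallyEq.fderiv_eq
      filter_upwards [hψ.1.mem_nhds hz] with w hw
      exact heq w hw u v
    constructor
    · intro u v
      exact (hs u v).congr fun z hz => heq z hz u v
    · intro z hz u v w
      rw [hfd z hz, hfd z hz, hfd z hz]
      exact hc z hz u v w
  · intro T hT hPT y u v
    simp only
    rw [herm_pullM, herm_pullM, tvec_comp hPd hT hPT, tvec_comp hPd hT hPT, hPT]

theorem dkmetk : S_DKMETK.{u} := by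
  intro b k D hD X _ _ _ P hP g hg
  obtain ⟨h1, h2⟩ := pullK hP.2.2 hg
  exact ⟨_, h1, h2, fun y u v => herm_pullM _ _ _ _⟩

end Pool.Agent.Helper9.LinK
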